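import Pool.Agent.Lib.MP_b5021c_nt.IfaceG

/-!
# MP_b5021c_nt, row WWF: factors of elements with exponents in `W(I,J)`.
-/

namespace Pool.Agent.B5.H15

open Pool.Agent.B5

variable {O : Type} [CommRing O] {P : Type} [Fintype P] [DecidableEq P] {L : Type}
  [AddCommGroup L]

lemma co_apply (phi : L →+ (P → ℤ)) (i : P) (a : L) : co phi i a = phi a i := rfl

lemma mul_mon_coeff (F : AO O L) (b c : L) : (F * mon b).coeff c = F.coeff (c - b) := by
  unfold mon
  rw [AddMonoidAlgebra.coeff_mul_single_apply, mul_one, sub_eq_add_neg]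

/-- Row WWF. -/
theorem wwf (h : MinS) : WWfS := by
  intro O _ _ _ _ P L _ _ _ _ _ phi I J G H hV hG hH
  have hG0 : G ≠ 0 := by
    rintro rfl
    exact hG rfl
  have hH0 : H ≠ 0 := by
    rintro rfl
    exact hH rfl
  have hVH : ∀ a ∈ supp (H * G), WW phi I J a := by
    intro a ha
    rw [mul_comm] at ha
    exact hV a ha
  have key : ∀ (A B : AO O L), A ≠ 0 → B.coeff 0 ≠ 0 → (∀ a ∈ supp (A * B), WW phi I J a) →
      ∀ a ∈ supp A, WW phi I J a := by
    intro A B hA hB hW a ha
    have lo : ∀ i, (∀ b ∈ supp (A * B), 0 ≤ phi b i) → 0 ≤ phi a i := by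
      intro i hi
      exact h O L A B hA hB (co phi i) 0 hi a ha
    have lo1 : ∀ i, (∀ b ∈ supp (A * B), -1 ≤ phi b i) → -1 ≤ phi a i := by
      intro i hi
      exact h O L A B hA hB (co phi i) (-1) hi a ha
    have hi1 : ∀ i, (∀ b ∈ supp (A * B), phi b i ≤ 1) → phi a i ≤ 1 := by
      intro i hi
      have := h O L A B hA hB (-co phi i) (-1)
        (by
          intro b hb
          have := hi b hb
          change -1 ≤ -(phi b i)
          linarith) a ha
      change -1 ≤ -(phi a i) at this
      linarith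
    have hi0 : ∀ i, (∀ b ∈ supp (A * B), phi b i ≤ 0) → phi a i ≤ 0 := by
      intro i hi
      have := h O L A B hA hB (-co phi i) 0
        (by
          intro b hb
          have := hi b hb
          change 0 ≤ -(phi b i)
          linarith) a ha
      change 0 ≤ -(phi a i) at this
      linarith
    have df : ∀ i i', (∀ b ∈ supp (A * B), -1 ≤ phi b i - phi b i') → -1 ≤ phi a i - phi a i' := by
      intro i i' hi
      exact h O L A B hA hB (co phi i - co phi i') (-1) hi a ha
    have hlo : ∀ i ∈ I, -1 ≤ phi a i := fun i hi => lo1 i (fun b hb => by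
      rcases (hW b hb).2.1 with h1 | h1 <;> rcases h1 i hi with h2 | h2 <;> omega)
    have hhi : ∀ i ∈ I, phi a i ≤ 1 := fun i hi => hi1 i (fun b hb => by
      rcases (hW b hb).2.1 with h1 | h1 <;> rcases h1 i hi with h2 | h2 <;> omega)
    have hdf : ∀ i ∈ I, ∀ i' ∈ I, -1 ≤ phi a i - phi a i' := fun i hi i' hi' =>
      df i i' (fun b hb => by
        rcases (hW b hb).2.1 with h1 | h1 <;> rcases h1 i hi with h2 | h2 <;>
          rcases h1 i' hi' with h3 | h3 <;> omega)
    refine ⟨?_, ?_, ?_⟩
    · intro j hj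
      have h1 := lo j (fun b hb => by rcases (hW b hb).1 j hj with h2 | h2 <;> omega)
      have h3 := hi1 j (fun b hb => by rcases (hW b hb).1 j hj with h2 | h2 <;> omega)
      omega
    · by_cases hneg : ∃ i ∈ I, phi a i = -1
      · obtain ⟨i0, hi0, h0⟩ := hneg
        right
        intro i hi
        have h1 := hlo i hi
        have h2 := hdf i0 hi0 i hi
        omega
      · left
        intro i hi
        have h1 := hlo i hi
        have h2 := hhi i hi
        have h3 : phi a i ≠ -1 := fun h4 => hneg ⟨i, hi, h4⟩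
        omega
    · intro j hj1 hj2
      have h1 := lo j (fun b hb => by rw [(hW b hb).2.2 j hj1 hj2])
      have h3 := hi0 j (fun b hb => by rw [(hW b hb).2.2 j hj1 hj2])
      omega
  refine ⟨key G H hG0 hH hV, ?_⟩
  intro j hj
  by_contra hcon
  push Not at hcon
  obtain ⟨⟨a, ha, ha0⟩, ⟨b, hb, hb0⟩⟩ := hcon
  have ha1 := (key G H hG0 hH hV a ha).1 j hj
  have hb1 := (key H G hH0 hG hVH b hb).1 j hj
  have hB : (H * mon (-b)).coeff 0 ≠ 0 := by
    rw [mul_mon_coeff, zero_sub, neg_neg]
    exact hb
  have := h O L G (H * mon (-b)) hG0 hB (-co phi j) 0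
    (by
      intro c hc
      have hc' : (G * H).coeff (c - -b) ≠ 0 := by
        rw [← mul_mon_coeff, mul_assoc]
        exact hc
      have h1 := (hV _ hc').1 j hj
      rw [sub_neg_eq_add, map_add] at h1
      change 0 ≤ -(phi c j)
      simp only [Pi.add_apply] at h1
      omega) a ha
  change 0 ≤ -(phi a j) at this
  omega

end Pool.Agent.B5.H15
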