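import Pool.Agent.Lib.MP_b5021c_nt.IfaceE3
import Pool.Agent.Lib.MP_b5021c_nt.B.H71.I2c

/-!
# Board b5, stage 3, row E3_QU (helper15)
-/

namespace Pool.Agent.B5.H15

open scoped LaurentPolynomial
open AddMonoidAlgebra Pool.Agent.B5.H71

set_option linter.unusedSectionVars false

section Core

variable {O : Type} [CommRing O] [IsDomain O] [IsPrincipalIdealRing O] [Coef O] {L : Type}
  [AddCommGroup L]

/-- The unitarity identity for the part without the port `j`. -/
theorem qu_core (hU : UnitAS) (hE : EvRS) (hZ : ZfinS) [Module.Free ℤ L] [Module.Finite ℤ L]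
    (k : L →+ ℤ) (S : L) (h : k S = 1) (eta : (RO O)ˣ)
    (D : AO O L) (hD : ∀ a ∈ supp D, k a = 0 ∨ k a = 1) (h0 : D.coeff 0 ≠ 0)
    (hS : D.coeff S ≠ 0) (hun : Unitary D) (k' : Ker k →+ ℤ) (b : Ker k) (hj : k' b = 1)
    (hD' : ∀ a ∈ supp (res (Ker k) D), k' a = 0 ∨ k' a = 1)
    (e : (RO O)ˣ) (g : RO O) (U q : AO O (Ker k'))
    (hV : cl k S h eta D = (1 - single b ((e⁻¹ : (RO O)ˣ) : RO O)) *
      (cst g * em (Ker k') U))
    (hX : cl k' b hj e (res (Ker k) D) = q * U) :
    res (Ker k') (res (Ker k) D) * sharp (cst g * U) +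
      sharp (res (Ker k') (res (Ker k) D)) * (cst g * U) - (cst g * U) * sharp (cst g * U) =
    q * cst (rsh g) * (U * sharp U) := by
  have hdec := decomp k S h D hD
  generalize res (Ker k) D = X at hX hdec hD' ⊢
  generalize res (Ker k) (single (-S) 1 * D) = Y at hdec
  obtain ⟨m, u, hX', hY'⟩ := pair hU hE hZ k S h D X Y hdec hD h0 hS hun
  have hVV : cl k S h eta D = X + cst (eta : RO O) * Y := by
    conv_lhs => rw [hdec]
    rw [map_add, map_mul, cl_em, cl_em, cl_single, prj_self, h, zpow_one, one_mul]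
    rfl
  have hee : (cst ((eta⁻¹ : (RO O)ˣ) : RO O) : AO O (Ker k)) * cst (eta : RO O) = 1 := by
    rw [← cst_mul, Units.inv_mul, cst_one]
  have hcs : ∀ d : RO O, sharp (cst d : AO O (Ker k)) = cst (rsh d) := by
    intro d; rw [cst, sharp_single, neg_zero]; rfl
  have hcs' : ∀ d : RO O, sharp (cst d : AO O (Ker k')) = cst (rsh d) := by
    intro d; rw [cst, sharp_single, neg_zero]; rfl
  have hVs : sharp (X + cst (eta : RO O) * Y) =
      cst ((eta⁻¹ : (RO O)ˣ) : RO O) * single m u * (X + cst (eta : RO O) * Y) := by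
    rw [map_add, map_mul, hX', hY', hcs, rsh_unit hE hZ]
    linear_combination (-(Y * single m u)) * hee
  have hstar : X * sharp (X + cst (eta : RO O) * Y) + sharp X * (X + cst (eta : RO O) * Y) =
      (X + cst (eta : RO O) * Y) * sharp (X + cst (eta : RO O) * Y) := by
    rw [hVs, hX']
    linear_combination (-(Y * single m u * (X + cst (eta : RO O) * Y))) * hee
  have hgU : (cst g * em (Ker k') U : AO O (Ker k)) = em (Ker k') (cst g * U) := by
    rw [map_mul, em_cst]
  rw [← hVV, hV, hgU] at hstar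
  set V : AO O (Ker k') := cst g * U with hVdef
  set Pf : AO O (Ker k) := 1 - single b ((e⁻¹ : (RO O)ˣ) : RO O) with hPf
  have h9 : (single (-b) (e : RO O) : AO O (Ker k)) * single b ((e⁻¹ : (RO O)ˣ) : RO O) = 1 := by
    rw [single_mul_single, neg_add_cancel, Units.mul_inv]
    rfl
  have hPs : sharp Pf = -(single (-b) (e : RO O)) * Pf := by
    rw [hPf, map_sub, map_one, sharp_single, rsh_unit hE hZ, inv_inv]
    linear_combination (-1 : AO O (Ker k)) * h9
  have hb0 : b ≠ 0 := by
    intro h1
    rw [h1, map_zero] at hj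
    exact zero_ne_one hj
  have hP0 : Pf ≠ 0 := by
    intro h1
    have h2 : Pf.coeff 0 = 1 := by
      rw [hPf, coeff_sub, Finsupp.sub_apply, coeff_single, Finsupp.single_eq_of_ne (Ne.symm hb0),
        sub_zero]
      exact coeff_one_zero
    rw [h1] at h2
    exact zero_ne_one h2
  have h5 : Pf * (-(single (-b) (e : RO O)) * X * sharp (em (Ker k') V) +
        sharp X * em (Ker k') V) =
      Pf * (em (Ker k') V * (-(single (-b) (e : RO O)) * Pf) * sharp (em (Ker k') V)) := by
    rw [map_mul, hPs] at hstar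
    linear_combination hstar
  have h6 := mul_left_cancel₀ hP0 h5
  -- the decomposition with respect to the second port
  have hdec2 := decomp k' b hj X hD'
  have hXc := hX
  generalize res (Ker k') X = Xo at hdec2 ⊢
  generalize res (Ker k') (single (-b) 1 * X) = X1 at hdec2
  have hcl : Xo + cst (e : RO O) * X1 = q * U := by
    rw [← hXc, hdec2, map_add, map_mul, cl_em, cl_em, cl_single, prj_self, hj, zpow_one, one_mul]
    rfl
  have hsX : sharp X = em (Ker k') (sharp Xo) + single (-b) 1 * em (Ker k') (sharp X1) := by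
    rw [hdec2, map_add, map_mul, sharp_em, sharp_em, sharp_single, map_one]
  have hsb : (single (-b) (e : RO O) : AO O (Ker k)) =
      single (-b) 1 * em (Ker k') (cst (e : RO O)) := by
    rw [em_cst, cst, single_mul_single, one_mul, add_zero]
  have hbb : (single (-b) 1 : AO O (Ker k)) * single b 1 = 1 := by
    rw [single_mul_single, neg_add_cancel, mul_one]
    rfl
  have h7 : em (Ker k') (-(cst (e : RO O) * X1 * sharp V) + sharp Xo * V - V * sharp V) =
      single (-b) 1 * em (Ker k') (cst (e : RO O) * Xo * sharp V - sharp X1 * V -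
        cst (e : RO O) * V * sharp V) := by
    simp only [map_add, map_sub, map_neg, map_mul]
    have h8 : (-(single (-b) (e : RO O)) * X * em (Ker k') (sharp V) + sharp X * em (Ker k') V) =
        em (Ker k') V * (1 - single (-b) (e : RO O)) * em (Ker k') (sharp V) := by
      rw [sharp_em] at h6
      linear_combination h6 + (em (Ker k') V * em (Ker k') (sharp V)) * h9
    rw [hsX, hdec2, hsb] at h8
    linear_combination h8 + (em (Ker k') (cst (e : RO O)) * em (Ker k') X1 *
      em (Ker k') (sharp V)) * hbb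
  have h10 := (em_split k' b hj _ _ h7).1
  have hVsh : sharp V = cst (rsh g) * sharp U := by
    rw [hVdef, map_mul, hcs']
  linear_combination h10 + sharp V * hcl + (q * U) * hVsh

end Core

/-- Row E3_QU. -/
theorem qu3 (hU : UnitAS) (hE : EvRS) (hZ : ZfinS) : Qu3S := by
  intro O _ _ _ _ P L _ _ _ _ _ phi D S i0 eta h c n G l b j e hj q hq
  have fd := hq.fd
  have sp := hq.sp
  obtain ⟨hSD, -, -⟩ := fd.cc.ray
  refine qu_core hU hE hZ (co phi i0) S h eta D (fun a ha => fd.cc.dd.bin a ha i0)
    fd.cc.dd.st.1 hSD fd.cc.dd.un (co (phK phi (co phi i0)) j) b hj ?_ e (c * (G l).coeff 0)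
    (Uo phi i0 j G l) q ?_ hq.xe
  · intro a ha
    exact fd.cc.dd.bin (a : L) ha j
  · have h1 : em (Ker (co (phK phi (co phi i0)) j)) (Uo phi i0 j G l) =
        ∏ i ∈ Finset.univ.erase l, G i := by
      unfold Uo
      rw [map_prod]
      apply Finset.prod_congr rfl
      intro i hi
      exact em_res _ _ (fun a ha => oth l b j e sp i (Finset.ne_of_mem_erase hi) a ha)
    rw [h1, fd.eq, ← Finset.mul_prod_erase Finset.univ G (Finset.mem_univ l), cst_mul]
    conv_lhs => rw [sp.eq]
    ring

end Pool.Agent.B5.H15
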